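import Mathlib
import Pool.Agent.KS6_36.NoMoment.Mom

set_option autoImplicit false

namespace Pool.Agent.Results.MP_68f671_pr.NoMomentNeeded

open MeasureTheory ProbabilityTheory Filter Topology Pool.Agent.R196.PP
open scoped ENNReal

/-- The quenched CLT with a nondegenerate deterministic covariance matrix: for `P`-almost every
`ω`, where `P = Q(· | ω(0) = 1)`, the law of `X_n / √n` under `P_ω` converges to `N(0, D)`. -/
def NondegenerateCLT (Q : Measure (Conf 2)) : Prop :=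
  ∃ D : Matrix (Fin 2) (Fin 2) ℝ, D.PosDef ∧
    ∀ᵐ ω ∂(ProbabilityTheory.cond Q (Om0 2)),
      Tendsto (fun n : ℕ => scaledLaw ω n) atTop
        (𝓝 (⟨multivariateGaussian 0 D, inferInstance⟩ :
          ProbabilityMeasure (EuclideanSpace ℝ (Fin 2))))

lemma log_bound (ε : ℝ) (hε : 0 < ε) (n : ℕ) :
    (Nat.log 2 n : ℝ) ≤ 1 / (ε * Real.log 2) * (n : ℝ) ^ ε := by
  have hl : 0 < Real.log 2 := Real.log_pos (by norm_num)
  have h1 : (Nat.log 2 n : ℝ) ≤ Real.logb 2 n := Real.natLog_le_logb n 2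
  have h2 : Real.log n ≤ (n : ℝ) ^ ε / ε := Real.log_le_rpow_div (Nat.cast_nonneg n) hε
  have h3 : Real.logb 2 n = Real.log n / Real.log 2 := rfl
  calc (Nat.log 2 n : ℝ) ≤ Real.log n / Real.log 2 := by rw [← h3]; exact h1
    _ ≤ ((n : ℝ) ^ ε / ε) / Real.log 2 := by gcongr
    _ = _ := by field_simp

lemma phi_le (r : ℝ) (hr : 1 < r) (n : ℕ) :
    ((n * Nat.log 2 n : ℕ) : ℝ≥0∞) ≤
      ENNReal.ofReal (1 / ((r - 1) * Real.log 2)) * (n : ℝ≥0∞) ^ r := by
  have hl : 0 < Real.log 2 := Real.log_pos (by norm_num)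
  have hε : 0 < r - 1 := by linarith
  have hK : 0 ≤ 1 / ((r - 1) * Real.log 2) := by positivity
  have h1 := log_bound (r - 1) hε n
  have h2 : ((n * Nat.log 2 n : ℕ) : ℝ) ≤ 1 / ((r - 1) * Real.log 2) * (n : ℝ) ^ r := by
    rcases Nat.eq_zero_or_pos n with h0 | h0
    · subst h0
      simp only [Nat.zero_mul, Nat.cast_zero]
      positivity
    · have hn : (0 : ℝ) < n := by exact_mod_cast h0
      have h3 : (n : ℝ) ^ r = n * (n : ℝ) ^ (r - 1) := by
        rw [Real.rpow_sub_one hn.ne']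
        field_simp
      push_cast
      rw [h3]
      calc (n : ℝ) * (Nat.log 2 n : ℝ) ≤ n * (1 / ((r - 1) * Real.log 2) * (n : ℝ) ^ (r - 1)) :=
            mul_le_mul_of_nonneg_left h1 hn.le
        _ = _ := by ring
  have h4 : ((n : ℝ≥0∞)) ^ r = ENNReal.ofReal ((n : ℝ) ^ r) := by
    rw [← ENNReal.ofReal_rpow_of_nonneg (Nat.cast_nonneg n) (by linarith),
      ENNReal.ofReal_natCast]
  rw [h4, ← ENNReal.ofReal_mul hK, ← ENNReal.ofReal_natCast]
  exact ENNReal.ofReal_le_ofReal h2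

/-- (1) For every `φ` with `φ(n) / n → ∞` there is a point process in `ℤ²` as in the problem with
`E_P[φ(f_e)] = ∞` for all four directions `e` whose walk satisfies a CLT with nondegenerate
covariance.  (2) There is one for which `E_P[f_e ^ r] = ∞` for all `e` and all real `r > 1`. -/
theorem result :
    (∀ φ : ℕ → ℝ≥0∞, (∀ C : ℕ, ∃ n₀ : ℕ, ∀ n ≥ n₀, (C : ℝ≥0∞) * n ≤ φ n) →
      ∃ Q : Measure (Conf 2), IsPointProcess 2 Q ∧
        (∀ e : Fin 2 × Bool,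
          ∫⁻ ω, φ (gap ω 0 e) ∂(ProbabilityTheory.cond Q (Om0 2)) = ∞) ∧
        NondegenerateCLT Q) ∧
    (∃ Q : Measure (Conf 2), IsPointProcess 2 Q ∧
      (∀ (e : Fin 2 × Bool) (r : ℝ), 1 < r →
        ∫⁻ ω, ((gap ω 0 e : ℕ) : ℝ≥0∞) ^ r ∂(ProbabilityTheory.cond Q (Om0 2)) = ∞) ∧
      NondegenerateCLT Q) := by
  refine ⟨fun φ hφ => Pool.Agent.KS6_36.NoMoment.main φ hφ, ?_⟩
  obtain ⟨Q, h1, h2, h3⟩ := Pool.Agent.KS6_36.NoMoment.main
    (fun n => ((n * Nat.log 2 n : ℕ) : ℝ≥0∞)) (by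
      intro C
      refine ⟨2 ^ C, fun n hn => ?_⟩
      have h4 : C ≤ Nat.log 2 n := Nat.le_log_of_pow_le (by norm_num) hn
      have h5 : C * n ≤ n * Nat.log 2 n := by
        rw [Nat.mul_comm]
        exact Nat.mul_le_mul_left _ h4
      exact_mod_cast h5)
  refine ⟨Q, h1, fun e r hr => ?_, h3⟩
  by_contra hne
  have h4 : ∫⁻ ω, ((gap ω 0 e * Nat.log 2 (gap ω 0 e) : ℕ) : ℝ≥0∞)
      ∂(ProbabilityTheory.cond Q (Om0 2)) ≤
      ENNReal.ofReal (1 / ((r - 1) * Real.log 2)) *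
        ∫⁻ ω, ((gap ω 0 e : ℕ) : ℝ≥0∞) ^ r ∂(ProbabilityTheory.cond Q (Om0 2)) := by
    rw [← lintegral_const_mul' _ _ ENNReal.ofReal_ne_top]
    exact lintegral_mono fun ω => phi_le r hr _
  rw [h2 e, top_le_iff] at h4
  exact ENNReal.mul_ne_top ENNReal.ofReal_ne_top hne h4

end Pool.Agent.Results.MP_68f671_pr.NoMomentNeeded
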